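import Mathlib

/-!
# Spectral-profile time versus maximal expected hitting time

For every finite connected graph `G` (in particular for every finite connected Cayley graph)
the spectral-profile time is at most `12 log 2` times the maximal expected hitting time of the
continuous-time simple random walk.

This file contains the definitions only.

Proof idea. Let `H x y = E_x[T_y]`. For `h : V → ℝ` the function
`u x = - ∑ y, π y * h y * H x y` solves `(I - P) u = h - E_π h`. Cauchy-Schwarz for the Dirichlet
form gives `Var(h)^2 ≤ E(h,h) * E(u,u)`, and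
`E(u,u) = ∑ x y, π x h x π y h y (E_π T_y - E_x T_y) ≤ t_hit * (E_π |h|)^2`.
If `π(supp h) ≤ δ`, this yields `Λ(δ) ≥ (1 - δ) / (δ * t_hit)`; also `Λ(δ) ≥ 1 / t_hit` for every
`δ`. Integrating `2 / (δ Λ(δ))` over `[4 π_*, 16]` gives the constant `2 log 64 = 12 log 2`.
-/

open MeasureTheory ProbabilityTheory Finset
open scoped ENNReal NNReal

set_option linter.unusedSectionVars false

namespace Pool.Agent.H.MP_cb142b_pr

variable {V : Type*} [Fintype V] [DecidableEq V] (G : SimpleGraph V) [DecidableRel G.Adj]

/-- Transition probabilities of simple random walk: `P(x,y) = 1 / deg x` if `x ~ y`, and `0`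
otherwise. -/
noncomputable def transProb (x y : V) : ℝ := if G.Adj x y then 1 / (G.degree x : ℝ) else 0

/-- The stationary law `π(x) = deg x / (2 |E|)`. -/
noncomputable def statProb (x : V) : ℝ := (G.degree x : ℝ) / (2 * (G.edgeFinset.card : ℝ))

section chain
variable [MeasurableSpace V] [DiscreteMeasurableSpace V]

/-- The law of one jump of simple random walk from `x`: uniform on the neighbours of `x`
(if `x` has no neighbour the walk stays put). -/
noncomputable def stepMeasure (x : V) : Measure V :=
  if h : (G.neighborFinset x).Nonempty then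
    (PMF.uniformOfFinset (G.neighborFinset x) h).toMeasure
  else Measure.dirac x

instance (x : V) : IsProbabilityMeasure (stepMeasure G x) := by
  unfold stepMeasure
  split_ifs <;> infer_instance

/-- The Markov kernel giving the `(n+1)`-st state of the jump chain from its first states
`Y 0, ..., Y n`: one jump from `Y n`. -/
noncomputable def stepKernel (n : ℕ) : Kernel ((i : Finset.Iic n) → V) V where
  toFun y := stepMeasure G (y ⟨n, Finset.mem_Iic.2 le_rfl⟩)
  measurable' := (Measurable.of_discrete (f := stepMeasure G)).comp (measurable_pi_apply _)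

instance (n : ℕ) : IsMarkovKernel (stepKernel G n) :=
  ⟨fun y => inferInstanceAs (IsProbabilityMeasure (stepMeasure G (y ⟨n, Finset.mem_Iic.2 le_rfl⟩)))⟩

/-- Law of the jump chain `Y 0, Y 1, ...` started at `x` (Ionescu-Tulcea). -/
noncomputable def jumpLaw (x : V) : Measure (ℕ → V) :=
  Kernel.trajMeasure (X := fun _ => V) (Measure.dirac x) (stepKernel G)

instance (x : V) : IsProbabilityMeasure (jumpLaw G x) := by
  unfold jumpLaw
  infer_instance

/-- Law of the holding times `ξ 0, ξ 1, ...`: independent exponential variables of rate `1`. -/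
noncomputable def holdingLaw : Measure (ℕ → ℝ) :=
  Measure.infinitePi (fun _ : ℕ => expMeasure 1)

instance : IsProbabilityMeasure (expMeasure 1) := isProbabilityMeasure_expMeasure one_pos

instance : IsProbabilityMeasure holdingLaw := by
  unfold holdingLaw
  infer_instance

/-- Law of the continuous-time simple random walk started at `x`: a pair `ω = (Y, ξ)` of the jump
chain and of an independent sequence of holding times. -/
noncomputable def walkLaw (x : V) : Measure ((ℕ → V) × (ℕ → ℝ)) :=
  (jumpLaw G x).prod holdingLaw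

/-- The time `S k = ξ 0 + ... + ξ (k-1)` of the `k`-th jump. -/
def jumpTime (ξ : ℕ → ℝ) (k : ℕ) : ℝ := ∑ i ∈ Finset.range k, ξ i

/-- The continuous-time walk is at `v` at time `t`: for some `k`, `S k ≤ t < S (k+1)` and
`Y k = v`. -/
def IsAt (ω : (ℕ → V) × (ℕ → ℝ)) (t : ℝ) (v : V) : Prop :=
  ∃ k : ℕ, jumpTime ω.2 k ≤ t ∧ t < jumpTime ω.2 (k + 1) ∧ ω.1 k = v

/-- The hitting time `T_y`: the infimum of the times `t ≥ 0` at which the walk is at `y`. -/
noncomputable def hitTime (y : V) (ω : (ℕ → V) × (ℕ → ℝ)) : ℝ≥0∞ :=
  ⨅ (t : ℝ≥0) (_ : IsAt ω (t : ℝ) y), (t : ℝ≥0∞)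

/-- `t_hit(G)`, the maximum over `x, y` of the expectation of `T_y` for the walk started
at `x`. -/
noncomputable def maxHittingTime : ℝ≥0∞ := ⨆ x : V, ⨆ y : V, ∫⁻ ω, hitTime y ω ∂(walkLaw G x)

end chain

/-- Mean of `h` under the stationary law. -/
noncomputable def mean (h : V → ℝ) : ℝ := ∑ x, statProb G x * h x

/-- Variance of `h` under the stationary law. -/
noncomputable def variance (h : V → ℝ) : ℝ := ∑ x, statProb G x * (h x - mean G h) ^ 2

/-- The Dirichlet form `E(h,h) = (1/2) ∑ x y, π(x) P(x,y) (h x - h y)^2`. -/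
noncomputable def dirichletForm (h : V → ℝ) : ℝ :=
  (1 / 2) * ∑ x, ∑ y, statProb G x * transProb G x y * (h x - h y) ^ 2

/-- The stationary mass of the support of `h`. -/
noncomputable def suppMass (h : V → ℝ) : ℝ :=
  ∑ x ∈ Finset.univ.filter (fun x => h x ≠ 0), statProb G x

/-- The spectral profile `Λ(ε)`: the infimum of `E(h,h)` over `h` with variance `1` and support of
mass at most `ε`, and `+∞` if there is no such `h`. -/
noncomputable def spectralProfile (ε : ℝ) : ℝ≥0∞ :=
  ⨅ (h : V → ℝ) (_ : variance G h = 1 ∧ suppMass G h ≤ ε), ENNReal.ofReal (dirichletForm G h)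

/-- `π_* = min_x π(x)`. -/
noncomputable def minStatProb : ℝ := ⨅ x, statProb G x

/-- The spectral-profile time: the integral of `2 / (δ Λ(δ))` over `[4 π_*, 16]`. -/
noncomputable def spectralProfileTime : ℝ≥0∞ :=
  ∫⁻ δ in Set.Icc (4 * minStatProb G) 16, 2 / (ENNReal.ofReal δ * spectralProfile G δ)

end Pool.Agent.H.MP_cb142b_pr
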