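import Pool.Agent.H.MP_cb142b_pr.Defs

/-!
# Proofs for the comparison of the spectral-profile time and the maximal hitting time
-/

open MeasureTheory ProbabilityTheory Finset
open scoped ENNReal NNReal

set_option linter.unusedSectionVars false

namespace Pool.Agent.H.MP_cb142b_pr

variable {V : Type*} [Fintype V] [DecidableEq V] (G : SimpleGraph V) [DecidableRel G.Adj]

/-- analytic core -/
theorem core {V : Type*} [Fintype V] [DecidableEq V] (w : V → ℝ) (P H : V → V → ℝ) (t : ℝ)
    (hw : ∀ x, 0 ≤ w x) (hw1 : ∑ x, w x = 1)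
    (hP : ∀ x y, 0 ≤ P x y) (hP1 : ∀ x, ∑ y, P x y = 1)
    (hrev : ∀ x y, w x * P x y = w y * P y x)
    (hH0 : ∀ x y, 0 ≤ H x y) (hHt : ∀ x y, H x y ≤ t)
    (hHd : ∀ y, H y y = 0)
    (hHs : ∀ x y, x ≠ y → H x y = 1 + ∑ z, P x z * H z y)
    (h : V → ℝ) :
    (∑ x, w x * (h x - ∑ y, w y * h y) ^ 2) ^ 2 ≤
      ((1 / 2) * ∑ x, ∑ y, w x * P x y * (h x - h y) ^ 2) * (t * (∑ x, w x * |h x|) ^ 2) := by
  set m : ℝ := ∑ y, w y * h y with hm
  -- stationarity
  have hstat : ∀ g : V → ℝ, ∑ x, w x * (∑ z, P x z * g z) = ∑ x, w x * g x := by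
    intro g
    calc ∑ x, w x * (∑ z, P x z * g z) = ∑ x, ∑ z, w x * P x z * g z := by
          refine Finset.sum_congr rfl fun x _ => ?_
          rw [Finset.mul_sum]
          refine Finset.sum_congr rfl fun z _ => by ring
      _ = ∑ x, ∑ z, w z * P z x * g z := by
          refine Finset.sum_congr rfl fun x _ => Finset.sum_congr rfl fun z _ => by rw [hrev]
      _ = ∑ z, ∑ x, w z * P z x * g z := Finset.sum_comm
      _ = ∑ z, w z * g z := by
          refine Finset.sum_congr rfl fun z _ => ?_
          rw [← Finset.sum_mul, ← Finset.mul_sum, hP1, mul_one]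
  have hr : ∀ y, w y * (∑ z, P y z * H z y) = 1 - w y := by
    intro y
    have h1 := hstat (fun z => H z y)
    have h2 : ∑ x, w x * H x y = ∑ x ∈ univ.erase y, (w x + w x * ∑ z, P x z * H z y) := by
      rw [← Finset.add_sum_erase _ _ (Finset.mem_univ y), hHd, mul_zero, zero_add]
      refine Finset.sum_congr rfl fun x hx => ?_
      rw [hHs x y (Finset.ne_of_mem_erase hx)]
      ring
    rw [h2, ← Finset.add_sum_erase _ _ (Finset.mem_univ y), Finset.sum_add_distrib] at h1
    have h3 : w y + ∑ x ∈ univ.erase y, w x = 1 := by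
      rw [Finset.add_sum_erase _ _ (Finset.mem_univ y), hw1]
    linarith
  set u : V → ℝ := fun x => - ∑ y, w y * h y * H x y with hu
  have hLu : ∀ x, u x - ∑ z, P x z * u z = h x - m := by
    intro x
    have h1 : ∑ z, P x z * u z = - ∑ y, w y * h y * ∑ z, P x z * H z y := by
      simp only [hu, mul_neg, Finset.sum_neg_distrib]
      congr 1
      calc ∑ z, P x z * ∑ y, w y * h y * H z y = ∑ z, ∑ y, w y * h y * (P x z * H z y) := by
            refine Finset.sum_congr rfl fun z _ => ?_
            rw [Finset.mul_sum]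
            refine Finset.sum_congr rfl fun y _ => by ring
        _ = ∑ y, ∑ z, w y * h y * (P x z * H z y) := Finset.sum_comm
        _ = _ := by
            refine Finset.sum_congr rfl fun y _ => ?_
            rw [Finset.mul_sum]
    have h2 : u x - ∑ z, P x z * u z = ∑ y, w y * h y * (∑ z, P x z * H z y - H x y) := by
      rw [h1]
      simp only [hu, mul_sub, Finset.sum_sub_distrib]
      ring
    rw [h2, ← Finset.add_sum_erase _ _ (Finset.mem_univ x), hHd, sub_zero]
    have h3 : ∑ y ∈ univ.erase x, w y * h y * (∑ z, P x z * H z y - H x y)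
        = ∑ y ∈ univ.erase x, - (w y * h y) := by
      refine Finset.sum_congr rfl fun y hy => ?_
      rw [hHs x y (Finset.ne_of_mem_erase hy).symm]
      ring
    rw [h3, Finset.sum_neg_distrib]
    have h4 : w x * h x + ∑ y ∈ univ.erase x, w y * h y = m := by
      rw [Finset.add_sum_erase _ (fun y => w y * h y) (Finset.mem_univ x)]
    have h5 : w x * h x * ∑ z, P x z * H z x = h x * (1 - w x) := by
      rw [← hr x]; ring
    rw [h5]
    linarith
  -- Dirichlet form identity
  have hdir : ∀ f g : V → ℝ, ∑ x, w x * (g x * (f x - ∑ z, P x z * f z))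
      = (1 / 2) * ∑ x, ∑ y, w x * P x y * ((f x - f y) * (g x - g y)) := by
    intro f g
    have e1 : ∑ x, w x * (g x * (f x - ∑ z, P x z * f z))
        = ∑ x, ∑ y, w x * P x y * (g x * (f x - f y)) := by
      refine Finset.sum_congr rfl fun x _ => ?_
      have : f x = ∑ y, P x y * f x := by rw [← Finset.sum_mul, hP1, one_mul]
      calc w x * (g x * (f x - ∑ z, P x z * f z))
          = w x * (g x * (∑ y, P x y * f x - ∑ z, P x z * f z)) := by rw [← this]
        _ = _ := by
          rw [← Finset.sum_sub_distrib, Finset.mul_sum, Finset.mul_sum]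
          refine Finset.sum_congr rfl fun y _ => by ring
    have e2 : ∑ x, ∑ y, w x * P x y * (g x * (f x - f y))
        = ∑ x, ∑ y, w x * P x y * (g y * (f y - f x)) := by
      rw [Finset.sum_comm]
      refine Finset.sum_congr rfl fun x _ => Finset.sum_congr rfl fun y _ => ?_
      rw [hrev y x]
    have e3 : ∑ x, ∑ y, w x * P x y * ((f x - f y) * (g x - g y))
        = ∑ x, ∑ y, w x * P x y * (g x * (f x - f y))
          + ∑ x, ∑ y, w x * P x y * (g y * (f y - f x)) := by
      rw [← Finset.sum_add_distrib]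
      refine Finset.sum_congr rfl fun x _ => ?_
      rw [← Finset.sum_add_distrib]
      refine Finset.sum_congr rfl fun y _ => by ring
    rw [e3, ← e2, e1]; ring
  -- variance as a form
  have hsum_w : ∑ x, w x * (h x - m) = 0 := by
    simp only [mul_sub, Finset.sum_sub_distrib]
    rw [← Finset.sum_mul, hw1, one_mul, ← hm, sub_self]
  have hvar : ∑ x, w x * (h x - m) ^ 2
      = (1 / 2) * ∑ x, ∑ y, w x * P x y * ((u x - u y) * (h x - h y)) := by
    rw [← hdir u h]
    have : ∑ x, w x * (h x - m) ^ 2 = ∑ x, w x * (h x * (h x - m)) - m * ∑ x, w x * (h x - m) := by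
      rw [Finset.mul_sum, ← Finset.sum_sub_distrib]
      refine Finset.sum_congr rfl fun x _ => by ring
    rw [this, hsum_w, mul_zero, sub_zero]
    refine Finset.sum_congr rfl fun x _ => by rw [hLu]
  have hEuu : (1 / 2) * ∑ x, ∑ y, w x * P x y * (u x - u y) ^ 2 ≤ t * (∑ x, w x * |h x|) ^ 2 := by
    have e1 : (1 / 2) * ∑ x, ∑ y, w x * P x y * (u x - u y) ^ 2
        = ∑ x, w x * (u x * (h x - m)) := by
      have := hdir u u
      simp only [hLu] at this
      rw [this]
      congr 1
      refine Finset.sum_congr rfl fun x _ => Finset.sum_congr rfl fun y _ => by ring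
    set q : V → ℝ := fun y => ∑ x, w x * H x y with hq
    have e2 : ∑ x, w x * (u x * (h x - m))
        = ∑ x, ∑ y, (w x * h x) * (w y * h y) * (q y - H x y) := by
      have a1 : ∑ x, w x * (u x * (h x - m))
          = ∑ x, w x * h x * u x - m * ∑ x, w x * u x := by
        rw [Finset.mul_sum, ← Finset.sum_sub_distrib]
        refine Finset.sum_congr rfl fun x _ => by ring
      have a2 : ∑ x, w x * u x = - ∑ y, w y * h y * q y := by
        simp only [hu, mul_neg, Finset.sum_neg_distrib]
        congr 1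
        calc ∑ x, w x * ∑ y, w y * h y * H x y = ∑ x, ∑ y, w y * h y * (w x * H x y) := by
              refine Finset.sum_congr rfl fun x _ => ?_
              rw [Finset.mul_sum]
              refine Finset.sum_congr rfl fun y _ => by ring
          _ = ∑ y, ∑ x, w y * h y * (w x * H x y) := Finset.sum_comm
          _ = _ := by
              refine Finset.sum_congr rfl fun y _ => ?_
              rw [hq, Finset.mul_sum]
      have a3 : m * ∑ y, w y * h y * q y = ∑ x, ∑ y, (w x * h x) * (w y * h y) * q y := by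
        rw [hm, Finset.sum_mul]
        refine Finset.sum_congr rfl fun x _ => ?_
        rw [Finset.mul_sum]
        refine Finset.sum_congr rfl fun y _ => by ring
      have a4 : ∑ x, w x * h x * u x = - ∑ x, ∑ y, (w x * h x) * (w y * h y) * H x y := by
        rw [← Finset.sum_neg_distrib]
        refine Finset.sum_congr rfl fun x _ => ?_
        simp only [hu, mul_neg]
        congr 1
        rw [Finset.mul_sum]
        refine Finset.sum_congr rfl fun y _ => by ring
      rw [a1, a2, a4, mul_neg, a3, sub_neg_eq_add]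
      simp only [mul_sub, Finset.sum_sub_distrib]
      ring
    have hq0 : ∀ y, 0 ≤ q y := fun y => Finset.sum_nonneg fun x _ => mul_nonneg (hw x) (hH0 x y)
    have hqt : ∀ y, q y ≤ t := by
      intro y
      calc q y ≤ ∑ x, w x * t := Finset.sum_le_sum fun x _ =>
              mul_le_mul_of_nonneg_left (hHt x y) (hw x)
        _ = t := by rw [← Finset.sum_mul, hw1, one_mul]
    have e3 : ∑ x, ∑ y, (w x * h x) * (w y * h y) * (q y - H x y)
        ≤ ∑ x, ∑ y, (w x * |h x|) * (w y * |h y|) * t := by
      refine Finset.sum_le_sum fun x _ => Finset.sum_le_sum fun y _ => ?_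
      have b1 : |q y - H x y| ≤ t := by
        rw [abs_le]
        constructor
        · linarith [hq0 y, hHt x y]
        · linarith [hqt y, hH0 x y]
      calc (w x * h x) * (w y * h y) * (q y - H x y)
          ≤ |(w x * h x) * (w y * h y) * (q y - H x y)| := le_abs_self _
        _ = (w x * |h x|) * (w y * |h y|) * |q y - H x y| := by
            rw [abs_mul, abs_mul, abs_mul, abs_mul, abs_of_nonneg (hw x), abs_of_nonneg (hw y)]
        _ ≤ (w x * |h x|) * (w y * |h y|) * t := by
            refine mul_le_mul_of_nonneg_left b1 ?_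
            have := hw x; have := hw y; positivity
    rw [e1, e2]
    refine e3.trans (le_of_eq ?_)
    rw [pow_two, Finset.sum_mul_sum, Finset.mul_sum]
    refine Finset.sum_congr rfl fun x _ => ?_
    rw [Finset.mul_sum]
    refine Finset.sum_congr rfl fun y _ => by ring
  -- Cauchy-Schwarz
  have hCS : (∑ x, ∑ y, w x * P x y * ((u x - u y) * (h x - h y))) ^ 2
      ≤ (∑ x, ∑ y, w x * P x y * (u x - u y) ^ 2) * (∑ x, ∑ y, w x * P x y * (h x - h y) ^ 2) := by
    have := Finset.sum_mul_sq_le_sq_mul_sq (Finset.univ : Finset (V × V))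
      (fun p => Real.sqrt (w p.1 * P p.1 p.2) * (u p.1 - u p.2))
      (fun p => Real.sqrt (w p.1 * P p.1 p.2) * (h p.1 - h p.2))
    have k1 : ∀ p : V × V, Real.sqrt (w p.1 * P p.1 p.2) * Real.sqrt (w p.1 * P p.1 p.2)
        = w p.1 * P p.1 p.2 := fun p => Real.mul_self_sqrt (mul_nonneg (hw _) (hP _ _))
    have s1 : ∑ p : V × V, Real.sqrt (w p.1 * P p.1 p.2) * (u p.1 - u p.2) *
        (Real.sqrt (w p.1 * P p.1 p.2) * (h p.1 - h p.2))
        = ∑ x, ∑ y, w x * P x y * ((u x - u y) * (h x - h y)) := by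
      rw [Fintype.sum_prod_type]
      refine Finset.sum_congr rfl fun x _ => Finset.sum_congr rfl fun y _ => ?_
      have := k1 (x, y)
      simp only at this ⊢
      linear_combination ((u x - u y) * (h x - h y)) * this
    have s2 : ∑ p : V × V, (Real.sqrt (w p.1 * P p.1 p.2) * (u p.1 - u p.2)) ^ 2
        = ∑ x, ∑ y, w x * P x y * (u x - u y) ^ 2 := by
      rw [Fintype.sum_prod_type]
      refine Finset.sum_congr rfl fun x _ => Finset.sum_congr rfl fun y _ => ?_
      have := k1 (x, y)
      simp only at this ⊢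
      linear_combination ((u x - u y) ^ 2) * this
    have s3 : ∑ p : V × V, (Real.sqrt (w p.1 * P p.1 p.2) * (h p.1 - h p.2)) ^ 2
        = ∑ x, ∑ y, w x * P x y * (h x - h y) ^ 2 := by
      rw [Fintype.sum_prod_type]
      refine Finset.sum_congr rfl fun x _ => Finset.sum_congr rfl fun y _ => ?_
      have := k1 (x, y)
      simp only at this ⊢
      linear_combination ((h x - h y) ^ 2) * this
    rw [s1, s2, s3] at this
    exact this
  rw [hvar]
  have hD : 0 ≤ (1 / 2) * ∑ x, ∑ y, w x * P x y * (h x - h y) ^ 2 := by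
    refine mul_nonneg (by norm_num) (Finset.sum_nonneg fun x _ => Finset.sum_nonneg fun y _ => ?_)
    exact mul_nonneg (mul_nonneg (hw x) (hP x y)) (sq_nonneg _)
  calc ((1 / 2) * ∑ x, ∑ y, w x * P x y * ((u x - u y) * (h x - h y))) ^ 2
      = (1 / 4) * (∑ x, ∑ y, w x * P x y * ((u x - u y) * (h x - h y))) ^ 2 := by ring
    _ ≤ (1 / 4) * ((∑ x, ∑ y, w x * P x y * (u x - u y) ^ 2) *
          (∑ x, ∑ y, w x * P x y * (h x - h y) ^ 2)) := by
        exact mul_le_mul_of_nonneg_left hCS (by norm_num)
    _ = ((1 / 2) * ∑ x, ∑ y, w x * P x y * (h x - h y) ^ 2) *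
          ((1 / 2) * ∑ x, ∑ y, w x * P x y * (u x - u y) ^ 2) := by ring
    _ ≤ _ := mul_le_mul_of_nonneg_left hEuu hD


section proofs
variable [MeasurableSpace V] [DiscreteMeasurableSpace V]

theorem lintegral_stepMeasure (x : V) (hx : 0 < G.degree x) (g : V → ℝ≥0∞) :
    ∫⁻ z, g z ∂(stepMeasure G x) = ∑ z, ENNReal.ofReal (transProb G x z) * g z := by
  have hne : (G.neighborFinset x).Nonempty := by
    rw [← Finset.card_pos, G.card_neighborFinset_eq_degree]; exact hx
  rw [lintegral_fintype]
  refine Finset.sum_congr rfl fun z _ => ?_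
  rw [mul_comm]
  congr 1
  rw [stepMeasure, dif_pos hne, PMF.toMeasure_apply_singleton _ _ (MeasurableSet.singleton z),
    PMF.uniformOfFinset_apply, transProb, G.card_neighborFinset_eq_degree]
  by_cases hz : G.Adj x z
  · rw [if_pos ((G.mem_neighborFinset x z).2 hz), if_pos hz, one_div,
      ENNReal.ofReal_inv_of_pos (by exact_mod_cast hx), ENNReal.ofReal_natCast]
  · rw [if_neg (fun h => hz ((G.mem_neighborFinset x z).1 h)), if_neg hz, ENNReal.ofReal_zero]

theorem jumpLaw_step (x y : V) (k : ℕ) (g : V → ℝ≥0∞) :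
    ∫⁻ Y, (if ∀ j ≤ k, Y j ≠ y then g (Y (k + 1)) else 0) ∂(jumpLaw G x)
      = ∫⁻ Y, (if ∀ j ≤ k, Y j ≠ y then ∫⁻ z, g z ∂(stepMeasure G (Y k)) else 0)
          ∂(jumpLaw G x) := by
  have key := Kernel.map_frestrictLe_trajMeasure_compProd_eq_map_trajMeasure
    (X := fun _ => V) (κ := stepKernel G) (μ₀ := Measure.dirac x) (a := k)
  set F : (((i : Finset.Iic k) → V) × V) → ℝ≥0∞ := fun p =>
    if ∀ j : Finset.Iic k, p.1 j ≠ y then g p.2 else 0 with hF
  have hFm : Measurable F := by
    refine Measurable.ite ?_ ?_ measurable_const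
    · have : {p : ((i : Finset.Iic k) → V) × V | ∀ j : Finset.Iic k, p.1 j ≠ y}
          = ⋂ j : Finset.Iic k, {p | p.1 j ≠ y} := by ext; simp
      rw [this]
      refine MeasurableSet.iInter fun j => ?_
      have hm : Measurable (fun p : ((i : Finset.Iic k) → V) × V => p.1 j) :=
        (measurable_pi_apply j).comp measurable_fst
      exact hm (MeasurableSet.of_discrete (s := {y}ᶜ))
    · exact (Measurable.of_discrete (f := g)).comp measurable_snd
  have hG1 : Measurable fun p : (i : Finset.Iic k) → V => ∫⁻ z, F (p, z) ∂(stepKernel G k p) :=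
    hFm.lintegral_kernel_prod_right'
  have h1 := congrArg (fun m => ∫⁻ p, F p ∂m) key
  beta_reduce at h1
  rw [Measure.lintegral_compProd hFm, lintegral_map hG1 (by fun_prop),
    lintegral_map hFm (by fun_prop)] at h1
  have e1 : ∀ Y : ℕ → V, F (Preorder.frestrictLe k Y, Y (k + 1))
      = if ∀ j ≤ k, Y j ≠ y then g (Y (k + 1)) else 0 := by
    intro Y
    by_cases hc : ∀ j ≤ k, Y j ≠ y
    · rw [if_pos hc]
      exact if_pos (fun j : Finset.Iic k => hc j.1 (Finset.mem_Iic.1 j.2))
    · rw [if_neg hc]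
      exact if_neg (fun h => hc fun j hj => h ⟨j, Finset.mem_Iic.2 hj⟩)
  have e2 : ∀ Y : ℕ → V, ∫⁻ z, F (Preorder.frestrictLe k Y, z)
        ∂(stepKernel G k (Preorder.frestrictLe k Y))
      = if ∀ j ≤ k, Y j ≠ y then ∫⁻ z, g z ∂(stepMeasure G (Y k)) else 0 := by
    intro Y
    have : stepKernel G k (Preorder.frestrictLe k Y) = stepMeasure G (Y k) := rfl
    rw [this]
    by_cases hc : ∀ j ≤ k, Y j ≠ y
    · rw [if_pos hc]
      refine lintegral_congr fun z => ?_
      exact if_pos (fun j : Finset.Iic k => hc j.1 (Finset.mem_Iic.1 j.2))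
    · rw [if_neg hc]
      have : ∀ z, F (Preorder.frestrictLe k Y, z) = 0 := fun z =>
        if_neg (fun h => hc fun j hj => h ⟨j, Finset.mem_Iic.2 hj⟩)
      simp [this]
  calc _ = ∫⁻ Y, F (Preorder.frestrictLe k Y, Y (k + 1)) ∂(jumpLaw G x) := by
        refine lintegral_congr fun Y => (e1 Y).symm
    _ = ∫⁻ Y, ∫⁻ z, F (Preorder.frestrictLe k Y, z)
        ∂(stepKernel G k (Preorder.frestrictLe k Y)) ∂(jumpLaw G x) := h1.symm
    _ = _ := lintegral_congr fun Y => e2 Y


theorem jumpLaw_zero (x : V) (g : V → ℝ≥0∞) :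
    ∫⁻ Y, g (Y 0) ∂(jumpLaw G x) = g x := by
  set p : (i : Finset.Iic 0) → V :=
    (MeasurableEquiv.piUnique (fun _ : Finset.Iic 0 => V)).symm x with hp
  have h0 : jumpLaw G x = Kernel.traj (X := fun _ => V) (stepKernel G) 0 p := by
    rw [jumpLaw, Kernel.trajMeasure, Measure.map_dirac' (by fun_prop), Measure.dirac_bind (by fun_prop)]
  have h1 := Kernel.traj_map_frestrictLe_apply (X := fun _ => V) (κ := stepKernel G) 0 0 p
  rw [Kernel.partialTraj_self, Kernel.id_apply, ← h0] at h1
  have hm : Measurable (fun r : (i : Finset.Iic 0) → V => g (r ⟨0, Finset.mem_Iic.2 le_rfl⟩)) :=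
    (Measurable.of_discrete (f := g)).comp (measurable_pi_apply _)
  have h2 : ∫⁻ Y, g (Y 0) ∂(jumpLaw G x)
      = ∫⁻ r, g (r ⟨0, Finset.mem_Iic.2 le_rfl⟩)
          ∂((jumpLaw G x).map (Preorder.frestrictLe (π := fun _ => V) 0)) := by
    rw [lintegral_map hm (by fun_prop)]
    rfl
  rw [h2, h1, lintegral_dirac' _ hm]
  rfl

/-- one step of the walk killed at `y` -/
noncomputable def killedStep (y : V) (g : V → ℝ≥0∞) (x : V) : ℝ≥0∞ :=
  if x ≠ y then ∑ z, ENNReal.ofReal (transProb G x z) * g z else 0

theorem lintegral_killed (hG : ∀ x, 0 < G.degree x) (x y : V) (k : ℕ) : ∀ (g : V → ℝ≥0∞),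
    ∫⁻ Y, (if ∀ j ≤ k, Y j ≠ y then g (Y k) else 0) ∂(jumpLaw G x)
      = (killedStep G y)^[k] (fun z => if z ≠ y then g z else 0) x := by
  induction k with
  | zero =>
    intro g
    rw [Function.iterate_zero, id, ← jumpLaw_zero G x (fun z => if z ≠ y then g z else 0)]
    refine lintegral_congr fun Y => ?_
    by_cases h : Y 0 = y
    · rw [if_neg (fun h' => h' 0 le_rfl h)]; simp [h]
    · rw [if_pos (fun j hj => by rw [Nat.le_zero.1 hj]; exact h)]; simp [h]
  | succ k ih =>
    intro g
    have e1 : ∀ Y : ℕ → V, (if ∀ j ≤ k + 1, Y j ≠ y then g (Y (k + 1)) else 0)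
        = (if ∀ j ≤ k, Y j ≠ y then (fun z => if z ≠ y then g z else 0) (Y (k + 1)) else 0) := by
      intro Y
      by_cases hc : ∀ j ≤ k, Y j ≠ y
      · rw [if_pos hc]
        by_cases hk : Y (k + 1) = y
        · rw [if_neg (fun h' => h' (k + 1) le_rfl hk)]; simp [hk]
        · rw [if_pos]
          · simp [hk]
          · intro j hj
            rcases Nat.lt_or_ge k j with h | h
            · have : j = k + 1 := by omega
              rw [this]; exact hk
            · exact hc j h
      · rw [if_neg hc, if_neg (fun h' => hc fun j hj => h' j (by omega))]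
    rw [lintegral_congr e1, jumpLaw_step G x y k (fun z => if z ≠ y then g z else 0),
      ih (fun w => ∫⁻ z, (if z ≠ y then g z else 0) ∂(stepMeasure G w)),
      Function.iterate_succ_apply]
    refine congrFun (congrArg _ (funext fun w => ?_)) x
    rw [killedStep]
    by_cases hw : w = y
    · simp [hw]
    · rw [if_pos hw, if_pos hw, lintegral_stepMeasure G w (hG w)]

theorem lintegral_expMeasure : ∫⁻ x, ENNReal.ofReal x ∂(expMeasure 1) = 1 := by
  have h1 : expMeasure 1 = volume.withDensity (exponentialPDF 1) := rfl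
  have hpm : Measurable (exponentialPDF 1) := (measurable_exponentialPDFReal 1).ennreal_ofReal
  rw [h1, lintegral_withDensity_eq_lintegral_mul _ hpm ENNReal.measurable_ofReal]
  have h2 : ∫⁻ x, (exponentialPDF 1 * fun x => ENNReal.ofReal x) x
      = ∫⁻ x in Set.Ioi (0 : ℝ), ENNReal.ofReal (Real.exp (-x) * x ^ ((2 : ℝ) - 1)) := by
    rw [← lintegral_indicator measurableSet_Ioi]
    refine lintegral_congr fun x => ?_
    rw [Pi.mul_apply]
    by_cases hx : 0 < x
    · rw [Set.indicator_of_mem (Set.mem_Ioi.2 hx), exponentialPDF_of_nonneg hx.le,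
        ← ENNReal.ofReal_mul (by positivity)]
      congr 1
      norm_num
    · rw [Set.indicator_of_notMem (by simpa using hx),
        ENNReal.ofReal_of_nonpos (not_lt.1 hx), mul_zero]
  rw [h2, ← ofReal_integral_eq_lintegral_ofReal (Real.GammaIntegral_convergent (by norm_num)),
    ← Real.Gamma_eq_integral (by norm_num)]
  · rw [Real.Gamma_two, ENNReal.ofReal_one]
  · refine (ae_restrict_iff' measurableSet_Ioi).2 (Filter.Eventually.of_forall fun x hx => ?_)
    have : 0 < x := hx
    positivity

theorem holding_pos : ∀ᵐ ξ ∂holdingLaw, ∀ k, 0 < ξ k := by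
  rw [ae_all_iff]
  intro k
  have h1 : (holdingLaw).map (fun ξ => ξ k) = expMeasure 1 :=
    Measure.infinitePi_map_eval _ k
  have h2 : ∀ᵐ x ∂(expMeasure 1), 0 < x := by
    rw [ae_iff]
    have : {a : ℝ | ¬ 0 < a} = Set.Iic 0 := by ext; simp
    rw [this]
    have h3 : expMeasure 1 = volume.withDensity (exponentialPDF 1) := rfl
    rw [h3, withDensity_apply _ measurableSet_Iic, ← setLIntegral_congr Iio_ae_eq_Iic]
    exact lintegral_exponentialPDF_of_nonpos le_rfl
  rw [← h1] at h2
  exact ae_of_ae_map (measurable_pi_apply k).aemeasurable h2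

/-- sum of the holding times before the jump chain first reaches `y` -/
noncomputable def sumHold (y : V) (ω : (ℕ → V) × (ℕ → ℝ)) : ℝ≥0∞ :=
  ∑' k : ℕ, (if ∀ j ≤ k, ω.1 j ≠ y then 1 else 0) * ENNReal.ofReal (ω.2 k)

theorem ofReal_jumpTime {ξ : ℕ → ℝ} (hξ : ∀ k, 0 < ξ k) (K : ℕ) :
    ENNReal.ofReal (jumpTime ξ K) = ∑ k ∈ Finset.range K, ENNReal.ofReal (ξ k) := by
  rw [jumpTime, ENNReal.ofReal_sum_of_nonneg fun i _ => (hξ i).le]

theorem sumHold_le (y : V) (ω : (ℕ → V) × (ℕ → ℝ)) (hξ : ∀ k, 0 < ω.2 k) :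
    sumHold y ω ≤ hitTime y ω := by
  rw [hitTime]
  refine le_iInf₂ fun t ht => ?_
  obtain ⟨K, h1, -, h3⟩ := ht
  have e1 : sumHold y ω ≤ ∑ k ∈ Finset.range K, ENNReal.ofReal (ω.2 k) := by
    rw [sumHold, tsum_eq_sum (s := Finset.range K)]
    · refine Finset.sum_le_sum fun k _ => ?_
      split_ifs
      · rw [one_mul]
      · rw [zero_mul]; exact zero_le
    · intro k hk
      rw [if_neg, zero_mul]
      intro h
      exact h K (by simpa using hk) h3
  refine e1.trans ?_
  rw [← ofReal_jumpTime hξ, ← ENNReal.ofReal_coe_nnreal]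
  exact ENNReal.ofReal_le_ofReal h1

theorem le_sumHold (y : V) (ω : (ℕ → V) × (ℕ → ℝ)) (hξ : ∀ k, 0 < ω.2 k)
    (hy : ∃ k, ω.1 k = y) : hitTime y ω ≤ sumHold y ω := by
  classical
  set K := Nat.find hy with hK
  have hKy : ω.1 K = y := Nat.find_spec hy
  have hpos : 0 ≤ jumpTime ω.2 K := Finset.sum_nonneg fun i _ => (hξ i).le
  have e1 : hitTime y ω ≤ ENNReal.ofReal (jumpTime ω.2 K) := by
    rw [hitTime]
    refine (iInf₂_le (Real.toNNReal (jumpTime ω.2 K)) ?_).trans (le_of_eq rfl)
    refine ⟨K, ?_, ?_, hKy⟩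
    · rw [Real.coe_toNNReal _ hpos]
    · rw [Real.coe_toNNReal _ hpos, jumpTime, jumpTime, Finset.sum_range_succ]
      linarith [hξ K]
  refine e1.trans ?_
  rw [ofReal_jumpTime hξ, sumHold]
  refine le_trans (le_of_eq ?_) (ENNReal.sum_le_tsum (Finset.range K))
  refine Finset.sum_congr rfl fun k hk => ?_
  rw [if_pos, one_mul]
  intro j hj h
  have : K ≤ j := Nat.find_min' hy h
  have : k < K := by simpa using hk
  omega

/-- Expected number of jumps before reaching `y`. -/
noncomputable def tau (x y : V) : ℝ≥0∞ :=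
  ∑' k : ℕ, (killedStep G y)^[k] (fun z => if z ≠ y then 1 else 0) x

theorem measurable_surv (y : V) (k : ℕ) :
    Measurable (fun Y : ℕ → V => if ∀ j ≤ k, Y j ≠ y then (1 : ℝ≥0∞) else 0) := by
  refine Measurable.ite ?_ measurable_const measurable_const
  have : {Y : ℕ → V | ∀ j ≤ k, Y j ≠ y} = ⋂ j : ℕ, ⋂ _ : j ≤ k, {Y | Y j ≠ y} := by
    ext; simp
  rw [this]
  refine MeasurableSet.iInter fun j => MeasurableSet.iInter fun _ => ?_
  have hm : Measurable (fun Y : ℕ → V => Y j) := measurable_pi_apply j
  exact hm (MeasurableSet.of_discrete (s := {y}ᶜ))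

theorem lintegral_sumHold (hG : ∀ x, 0 < G.degree x) (x y : V) :
    ∫⁻ ω, sumHold y ω ∂(walkLaw G x) = tau G x y := by
  simp only [sumHold]
  rw [lintegral_tsum]
  · rw [tau]
    refine tsum_congr fun k => ?_
    have hm2 : Measurable (fun ξ : ℕ → ℝ => ENNReal.ofReal (ξ k)) :=
      ENNReal.measurable_ofReal.comp (measurable_pi_apply k)
    rw [walkLaw, lintegral_prod_mul
      (f := fun Y : ℕ → V => if ∀ j ≤ k, Y j ≠ y then (1 : ℝ≥0∞) else 0)
      (g := fun ξ : ℕ → ℝ => ENNReal.ofReal (ξ k))
      (measurable_surv y k).aemeasurable hm2.aemeasurable]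
    have h1 : ∫⁻ ξ, ENNReal.ofReal (ξ k) ∂holdingLaw = 1 := by
      have h2 : (holdingLaw).map (fun ξ => ξ k) = expMeasure 1 :=
        Measure.infinitePi_map_eval _ k
      rw [← lintegral_expMeasure, ← h2,
        lintegral_map ENNReal.measurable_ofReal (measurable_pi_apply k)]
    rw [h1, mul_one]
    exact lintegral_killed G hG x y k (fun _ => 1)
  · intro k
    exact (((measurable_surv y k).comp measurable_fst).mul
      (ENNReal.measurable_ofReal.comp ((measurable_pi_apply k).comp measurable_snd))).aemeasurable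

theorem ae_holding (x : V) : ∀ᵐ ω ∂(walkLaw G x), ∀ k, 0 < ω.2 k := by
  have h := (Measure.quasiMeasurePreserving_snd (μ := jumpLaw G x) (ν := holdingLaw)).ae holding_pos
  exact h

theorem tau_le (hG : ∀ x, 0 < G.degree x) (x y : V) :
    tau G x y ≤ ∫⁻ ω, hitTime y ω ∂(walkLaw G x) := by
  rw [← lintegral_sumHold G hG]
  refine lintegral_mono_ae ?_
  filter_upwards [ae_holding G x] with ω hω
  exact sumHold_le y ω hω

theorem tau_self (y : V) : tau G y y = 0 := by
  rw [tau]
  refine ENNReal.tsum_eq_zero.2 fun k => ?_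
  cases k with
  | zero => simp
  | succ k => rw [Function.iterate_succ_apply']; simp [killedStep]

theorem tau_step (x y : V) (hxy : x ≠ y) :
    tau G x y = 1 + ∑ z, ENNReal.ofReal (transProb G x z) * tau G z y := by
  rw [tau, tsum_eq_zero_add' ENNReal.summable]
  congr 1
  · simp [hxy]
  · simp only [tau, ← ENNReal.tsum_mul_left]
    rw [← Summable.tsum_finsetSum fun i _ => ENNReal.summable]
    refine tsum_congr fun k => ?_
    rw [Function.iterate_succ_apply', killedStep, if_pos hxy]

theorem transProb_nonneg (x y : V) : 0 ≤ transProb G x y := by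
  unfold transProb
  split_ifs
  · positivity
  · exact le_rfl

theorem sum_transProb (x : V) (hx : 0 < G.degree x) : ∑ y, transProb G x y = 1 := by
  simp only [transProb]
  rw [← Finset.sum_filter, Finset.sum_const, nsmul_eq_mul]
  have : (Finset.univ.filter fun y => G.Adj x y) = G.neighborFinset x := by
    ext; simp
  rw [this, G.card_neighborFinset_eq_degree, mul_one_div_cancel]
  exact_mod_cast hx.ne'

theorem statProb_nonneg (x : V) : 0 ≤ statProb G x := by
  unfold statProb; positivity

theorem sum_statProb (hE : 0 < G.edgeFinset.card) : ∑ x, statProb G x = 1 := by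
  simp only [statProb]
  rw [← Finset.sum_div]
  have h := G.sum_degrees_eq_twice_card_edges
  have h' : (∑ x, (G.degree x : ℝ)) = 2 * (G.edgeFinset.card : ℝ) := by exact_mod_cast h
  rw [h', div_self]
  have : (0 : ℝ) < G.edgeFinset.card := by exact_mod_cast hE
  positivity

theorem reversible (hG : ∀ x, 0 < G.degree x) (x y : V) :
    statProb G x * transProb G x y = statProb G y * transProb G y x := by
  simp only [statProb, transProb]
  by_cases h : G.Adj x y
  · rw [if_pos h, if_pos h.symm]
    have h1 : (G.degree x : ℝ) ≠ 0 := by exact_mod_cast (hG x).ne'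
    have h2 : (G.degree y : ℝ) ≠ 0 := by exact_mod_cast (hG y).ne'
    field_simp
  · rw [if_neg h, if_neg (fun h' => h h'.symm), mul_zero, mul_zero]

/-- A supersolution, giving finiteness of the expected hitting times. -/
theorem tau_lt_top (hc : G.Connected) (hG : ∀ x, 0 < G.degree x) (x y : V) :
    tau G x y < ⊤ := by
  set n : ℕ := Fintype.card V with hn
  have hn0 : 0 < n := Fintype.card_pos_iff.2 ⟨x⟩
  set β : ℝ := 1 / (2 * n) with hβ
  have hn0' : (1 : ℝ) ≤ n := by exact_mod_cast hn0
  have hβ0 : 0 < β := by positivity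
  have hβ1 : β ≤ 1 := by
    rw [hβ, div_le_one (by positivity)]; linarith
  set g : V → ℝ := fun z => (β⁻¹) ^ n * (1 - β ^ (G.dist z y)) with hg
  have hg0 : ∀ z, 0 ≤ g z := fun z =>
    mul_nonneg (by positivity) (sub_nonneg.2 (pow_le_one₀ hβ0.le hβ1))
  have hsup : ∀ z, z ≠ y → 1 + ∑ w, transProb G z w * g w ≤ g z := by
    intro z hz
    obtain ⟨p, hp⟩ := hc.exists_walk_length_eq_dist z y
    have hk1 : 0 < G.dist z y := hc.pos_dist_of_ne hz
    have hkn : G.dist z y ≤ n := by
      rw [← hp]
      exact (p.isPath_of_length_eq_dist hp).length_lt.le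
    obtain ⟨w, hw, hwd⟩ : ∃ w, G.Adj z w ∧ G.dist w y + 1 ≤ G.dist z y := by
      cases p with
      | nil => exact absurd rfl hz
      | cons h q =>
        refine ⟨_, h, ?_⟩
        rw [← hp, SimpleGraph.Walk.length_cons]
        exact Nat.succ_le_succ (SimpleGraph.dist_le q)
    have hPw : (2 * β) ≤ transProb G z w := by
      rw [transProb, if_pos hw, hβ]
      have h1 : (G.degree z : ℝ) ≤ n := by exact_mod_cast (G.degree_lt_card_verts z).le
      have h2 : (0 : ℝ) < G.degree z := by exact_mod_cast hG z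
      rw [show 2 * (1 / (2 * (n : ℝ))) = 1 / n by field_simp]
      exact one_div_le_one_div_of_le h2 h1
    have hsum : 2 * β ^ (G.dist z y) ≤ ∑ w, transProb G z w * β ^ (G.dist w y) := by
      calc 2 * β ^ (G.dist z y) = 2 * β * β ^ (G.dist z y - 1) := by
            conv_lhs => rw [show G.dist z y = (G.dist z y - 1) + 1 by omega, pow_succ]
            ring
        _ ≤ transProb G z w * β ^ (G.dist w y) := by
            refine mul_le_mul hPw ?_ (by positivity) (transProb_nonneg G z w)
            exact pow_le_pow_of_le_one hβ0.le hβ1 (by omega)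
        _ ≤ ∑ w, transProb G z w * β ^ (G.dist w y) :=
            Finset.single_le_sum (f := fun w => transProb G z w * β ^ (G.dist w y))
              (fun i _ => mul_nonneg (transProb_nonneg G z i) (by positivity))
              (Finset.mem_univ w)
    have hexp : ∑ w, transProb G z w * g w
        = (β⁻¹) ^ n * (1 - ∑ w, transProb G z w * β ^ (G.dist w y)) := by
      rw [← sum_transProb G z (hG z), ← Finset.sum_sub_distrib, Finset.mul_sum]
      refine Finset.sum_congr rfl fun w _ => by simp only [hg]; ring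
    have hC : 1 ≤ (β⁻¹) ^ n * β ^ (G.dist z y) := by
      have : (β⁻¹) ^ n * β ^ n = 1 := by
        rw [← mul_pow, inv_mul_cancel₀ hβ0.ne', one_pow]
      rw [← this]
      refine mul_le_mul_of_nonneg_left ?_ (by positivity)
      exact pow_le_pow_of_le_one hβ0.le hβ1 hkn
    rw [hexp]
    simp only [hg]
    have hCpos : 0 ≤ (β⁻¹) ^ n := by positivity
    nlinarith [mul_le_mul_of_nonneg_left hsum hCpos]
  have hpart : ∀ K : ℕ, ∀ z, ∑ k ∈ Finset.range K,
      (killedStep G y)^[k] (fun z => if z ≠ y then 1 else 0) z ≤ ENNReal.ofReal (g z) := by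
    intro K
    induction K with
    | zero => intro z; simp
    | succ K ih =>
      intro z
      by_cases hz : z = y
      · have : ∀ k, (killedStep G y)^[k] (fun z => if z ≠ y then 1 else 0) z = 0 := by
          intro k
          cases k with
          | zero => simp [hz]
          | succ k => rw [Function.iterate_succ_apply']; simp [killedStep, hz]
        rw [Finset.sum_eq_zero fun k _ => this k]
        exact zero_le
      · rw [Finset.sum_range_succ']
        have e1 : ∑ k ∈ Finset.range K,
            (killedStep G y)^[k + 1] (fun z => if z ≠ y then 1 else 0) z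
            = ∑ w, ENNReal.ofReal (transProb G z w) * ∑ k ∈ Finset.range K,
                (killedStep G y)^[k] (fun z => if z ≠ y then 1 else 0) w := by
          simp only [Finset.mul_sum]
          rw [Finset.sum_comm]
          refine Finset.sum_congr rfl fun k _ => ?_
          rw [Function.iterate_succ_apply', killedStep, if_pos hz]
        rw [e1]
        calc _ ≤ ∑ w, ENNReal.ofReal (transProb G z w) * ENNReal.ofReal (g w) + 1 := by
              refine add_le_add (Finset.sum_le_sum fun w _ => ?_) (by simp [hz])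
              exact mul_le_mul_right (ih w) _
          _ = ENNReal.ofReal (1 + ∑ w, transProb G z w * g w) := by
              rw [ENNReal.ofReal_add zero_le_one (Finset.sum_nonneg fun w _ =>
                mul_nonneg (transProb_nonneg G z w) (hg0 w)), ENNReal.ofReal_one,
                ENNReal.ofReal_sum_of_nonneg fun w _ =>
                mul_nonneg (transProb_nonneg G z w) (hg0 w), add_comm]
              congr 1
              refine Finset.sum_congr rfl fun w _ => ?_
              rw [ENNReal.ofReal_mul (transProb_nonneg G z w)]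
          _ ≤ ENNReal.ofReal (g z) := ENNReal.ofReal_le_ofReal (hsup z hz)
  refine lt_of_le_of_lt ?_ (ENNReal.ofReal_lt_top (r := g x))
  rw [tau, ENNReal.tsum_eq_iSup_nat]
  exact iSup_le fun K => hpart K x

/-- the expectation of the hitting time of the continuous time walk -/
theorem lintegral_hitTime (hc : G.Connected) (hG : ∀ x, 0 < G.degree x) (x y : V) :
    ∫⁻ ω, hitTime y ω ∂(walkLaw G x) = tau G x y := by
  refine le_antisymm ?_ (tau_le G hG x y)
  rw [← lintegral_sumHold G hG]
  -- almost surely the jump chain reaches `y`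
  have hfin := tau_lt_top G hc hG x y
  have hreach : ∀ᵐ Y ∂(jumpLaw G x), ∃ k, Y k = y := by
    have h0 : (jumpLaw G x) {Y | ∀ j, Y j ≠ y} = 0 := by
      by_contra hne
      have hlow : ∀ k, (jumpLaw G x) {Y | ∀ j, Y j ≠ y}
          ≤ (killedStep G y)^[k] (fun z => if z ≠ y then 1 else 0) x := by
        intro k
        rw [← lintegral_killed G hG x y k (fun _ => 1)]
        have hmeas : MeasurableSet {Y : ℕ → V | ∀ j, Y j ≠ y} := by
          have : {Y : ℕ → V | ∀ j, Y j ≠ y} = ⋂ j : ℕ, {Y | Y j ≠ y} := by ext; simp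
          rw [this]
          refine MeasurableSet.iInter fun j => ?_
          have hm : Measurable (fun Y : ℕ → V => Y j) := measurable_pi_apply j
          exact hm (MeasurableSet.of_discrete (s := {y}ᶜ))
        rw [← lintegral_indicator_one hmeas]
        refine lintegral_mono fun Y => ?_
        by_cases hY : Y ∈ {Y : ℕ → V | ∀ j, Y j ≠ y}
        · rw [Set.indicator_of_mem hY, if_pos (fun j _ => hY j)]; rfl
        · rw [Set.indicator_of_notMem hY]; exact zero_le
      have : tau G x y = ⊤ := by
        rw [tau]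
        refine top_le_iff.1 ?_
        calc (⊤ : ℝ≥0∞) = ∑' _ : ℕ, (jumpLaw G x) {Y | ∀ j, Y j ≠ y} :=
              (ENNReal.tsum_const_eq_top_of_ne_zero hne).symm
          _ ≤ _ := ENNReal.tsum_le_tsum hlow
      exact hfin.ne this
    rw [ae_iff]
    convert h0 using 2
    ext Y; simp
  have hreach' : ∀ᵐ ω ∂(walkLaw G x), ∃ k, ω.1 k = y :=
    (Measure.quasiMeasurePreserving_fst (μ := jumpLaw G x) (ν := holdingLaw)).ae hreach
  refine lintegral_mono_ae ?_
  filter_upwards [ae_holding G x, hreach'] with ω h1 h2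
  exact le_sumHold y ω h1 h2

theorem hit_step (hc : G.Connected) (hG : ∀ x, 0 < G.degree x) (x y : V) (hxy : x ≠ y) :
    (tau G x y).toReal = 1 + ∑ z, transProb G x z * (tau G z y).toReal := by
  rw [tau_step G x y hxy, ENNReal.toReal_add ENNReal.one_ne_top, ENNReal.toReal_one,
    ENNReal.toReal_sum]
  · congr 1
    refine Finset.sum_congr rfl fun z _ => ?_
    rw [ENNReal.toReal_mul, ENNReal.toReal_ofReal (transProb_nonneg G x z)]
  · intro z _
    exact ENNReal.mul_ne_top ENNReal.ofReal_ne_top (tau_lt_top G hc hG z y).ne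
  · exact ENNReal.sum_ne_top.2 fun z _ =>
      ENNReal.mul_ne_top ENNReal.ofReal_ne_top (tau_lt_top G hc hG z y).ne

theorem maxHittingTime_eq (hc : G.Connected) (hG : ∀ x, 0 < G.degree x) :
    maxHittingTime G = ⨆ x, ⨆ y, tau G x y := by
  rw [maxHittingTime]
  simp only [lintegral_hitTime G hc hG]

theorem maxHittingTime_lt_top (hc : G.Connected) (hG : ∀ x, 0 < G.degree x) :
    maxHittingTime G < ⊤ := by
  rw [maxHittingTime_eq G hc hG]
  have h1 : ∑ x, ∑ y, tau G x y < ⊤ :=
    ENNReal.sum_lt_top.2 fun x _ => ENNReal.sum_lt_top.2 fun y _ => tau_lt_top G hc hG x y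
  refine lt_of_le_of_lt (iSup_le fun x => iSup_le fun y => ?_) h1
  calc tau G x y ≤ ∑ y, tau G x y :=
        Finset.single_le_sum (f := fun y => tau G x y) (fun i _ => zero_le) (Finset.mem_univ y)
    _ ≤ ∑ x, ∑ y, tau G x y :=
        Finset.single_le_sum (f := fun x => ∑ y, tau G x y) (fun i _ => zero_le)
          (Finset.mem_univ x)

/-- The pointwise comparison: a function supported on a set of mass at most `δ`. -/
theorem variance_sq_le (hc : G.Connected) (hG : ∀ x, 0 < G.degree x)
    (hE : 0 < G.edgeFinset.card) (h : V → ℝ) :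
    (variance G h) ^ 2 ≤ dirichletForm G h *
      ((maxHittingTime G).toReal * (∑ x, statProb G x * |h x|) ^ 2) := by
  have hle : ∀ x y, (tau G x y).toReal ≤ (maxHittingTime G).toReal := by
    intro x y
    refine ENNReal.toReal_mono (maxHittingTime_lt_top G hc hG).ne ?_
    rw [maxHittingTime_eq G hc hG]
    exact (le_iSup (fun y => tau G x y) y).trans (le_iSup (fun x => ⨆ y, tau G x y) x)
  exact core (statProb G) (transProb G) (fun x y => (tau G x y).toReal) _
    (statProb_nonneg G) (sum_statProb G hE) (transProb_nonneg G)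
    (fun x => sum_transProb G x (hG x)) (reversible G hG)
    (fun x y => ENNReal.toReal_nonneg) hle (fun y => by simp [tau_self G y])
    (fun x y hxy => hit_step G hc hG x y hxy) h

theorem variance_eq (hE : 0 < G.edgeFinset.card) (h : V → ℝ) :
    variance G h = ∑ x, statProb G x * (h x) ^ 2 - (mean G h) ^ 2 := by
  have h1 : ∑ x, statProb G x * (h x - mean G h) ^ 2
      = ∑ x, statProb G x * (h x) ^ 2 - 2 * mean G h * (∑ x, statProb G x * h x)
        + (mean G h) ^ 2 * ∑ x, statProb G x := by
    rw [Finset.mul_sum, Finset.mul_sum, ← Finset.sum_sub_distrib, ← Finset.sum_add_distrib]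
    refine Finset.sum_congr rfl fun x _ => by ring
  have h2 : ∑ x, statProb G x * h x = mean G h := rfl
  rw [variance, h1, sum_statProb G hE, h2]
  ring

theorem dirichletForm_nonneg (h : V → ℝ) : 0 ≤ dirichletForm G h := by
  unfold dirichletForm
  refine mul_nonneg (by norm_num) (Finset.sum_nonneg fun x _ => Finset.sum_nonneg fun y _ => ?_)
  exact mul_nonneg (mul_nonneg (statProb_nonneg G x) (transProb_nonneg G x y)) (sq_nonneg _)

/-- `(∑ π |h|)² ≤ π(supp h) ∑ π h²` -/
theorem l1_sq_le (h : V → ℝ) :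
    (∑ x, statProb G x * |h x|) ^ 2 ≤ suppMass G h * ∑ x, statProb G x * (h x) ^ 2 := by
  have h1 : ∑ x, statProb G x * |h x|
      = ∑ x, (Real.sqrt (statProb G x) * (if h x ≠ 0 then 1 else 0)) *
          (Real.sqrt (statProb G x) * |h x|) := by
    refine Finset.sum_congr rfl fun x _ => ?_
    have := Real.mul_self_sqrt (statProb_nonneg G x)
    by_cases hx : h x = 0
    · simp [hx]
    · rw [if_pos hx]
      linear_combination (-|h x|) * this
  have h2 : ∑ x, (Real.sqrt (statProb G x) * (if h x ≠ 0 then 1 else 0)) ^ 2 = suppMass G h := by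
    rw [suppMass, Finset.sum_filter]
    refine Finset.sum_congr rfl fun x _ => ?_
    have := Real.sq_sqrt (statProb_nonneg G x)
    by_cases hx : h x = 0
    · simp [hx]
    · rw [if_pos hx, if_pos hx, mul_one, this]
  have h3 : ∑ x, (Real.sqrt (statProb G x) * |h x|) ^ 2 = ∑ x, statProb G x * (h x) ^ 2 := by
    refine Finset.sum_congr rfl fun x _ => ?_
    rw [mul_pow, Real.sq_sqrt (statProb_nonneg G x), sq_abs]
  rw [h1, ← h2, ← h3]
  exact Finset.sum_mul_sq_le_sq_mul_sq _ _ _

theorem mean_sq_le (h : V → ℝ) : (mean G h) ^ 2 ≤ (∑ x, statProb G x * |h x|) ^ 2 := by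
  rw [← sq_abs (mean G h)]
  refine pow_le_pow_left₀ (abs_nonneg _) ?_ 2
  rw [mean]
  refine (Finset.abs_sum_le_sum_abs _ _).trans (le_of_eq ?_)
  refine Finset.sum_congr rfl fun x _ => ?_
  rw [abs_mul, abs_of_nonneg (statProb_nonneg G x)]

/-- lower bound for the Dirichlet form, small support -/
theorem dirichlet_ge_small (hc : G.Connected) (hG : ∀ x, 0 < G.degree x)
    (hE : 0 < G.edgeFinset.card) (h : V → ℝ) (hv : variance G h = 1) (δ : ℝ) (hδ0 : 0 < δ)
    (hδ1 : δ < 1) (hs : suppMass G h ≤ δ) :
    1 - δ ≤ dirichletForm G h * (δ * (maxHittingTime G).toReal) := by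
  set t := (maxHittingTime G).toReal with ht
  have ht0 : 0 ≤ t := ENNReal.toReal_nonneg
  set M := ∑ x, statProb G x * (h x) ^ 2 with hM
  set L := (∑ x, statProb G x * |h x|) ^ 2 with hL
  have hD := dirichletForm_nonneg G h
  have hM0 : 0 ≤ M := Finset.sum_nonneg fun x _ => mul_nonneg (statProb_nonneg G x) (sq_nonneg _)
  have h1 : L ≤ δ * M := (l1_sq_le G h).trans (mul_le_mul_of_nonneg_right hs hM0)
  have h2 : 1 = M - (mean G h) ^ 2 := by rw [← hv, variance_eq G hE]
  have h3 : (mean G h) ^ 2 ≤ L := mean_sq_le G h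
  have h4 : (1 : ℝ) ≤ dirichletForm G h * (t * L) := by
    have := variance_sq_le G hc hG hE h
    rw [hv, one_pow] at this
    exact this
  -- (1-δ) M ≤ 1
  have h5 : (1 - δ) * M ≤ 1 := by nlinarith
  have h6 : (1 : ℝ) ≤ dirichletForm G h * (t * (δ * M)) :=
    h4.trans (mul_le_mul_of_nonneg_left (mul_le_mul_of_nonneg_left h1 ht0) hD)
  have h7 : (0 : ℝ) ≤ dirichletForm G h * (δ * t) := by positivity
  calc 1 - δ = (1 - δ) * 1 := by ring
    _ ≤ (1 - δ) * (dirichletForm G h * (t * (δ * M))) :=
        mul_le_mul_of_nonneg_left h6 (by linarith)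
    _ = (dirichletForm G h * (δ * t)) * ((1 - δ) * M) := by ring
    _ ≤ (dirichletForm G h * (δ * t)) * 1 := mul_le_mul_of_nonneg_left h5 h7
    _ = _ := by ring

/-- lower bound for the Dirichlet form, general support (spectral gap) -/
theorem dirichlet_ge_gap (hc : G.Connected) (hG : ∀ x, 0 < G.degree x)
    (hE : 0 < G.edgeFinset.card) (h : V → ℝ) (hv : variance G h = 1) :
    1 ≤ dirichletForm G h * (maxHittingTime G).toReal := by
  set t := (maxHittingTime G).toReal with ht
  have ht0 : 0 ≤ t := ENNReal.toReal_nonneg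
  set m := mean G h with hm
  set h' : V → ℝ := fun x => h x - m with hh'
  have hmean : mean G h' = 0 := by
    simp only [mean, hh', mul_sub, Finset.sum_sub_distrib]
    rw [← Finset.sum_mul, sum_statProb G hE, one_mul, hm, mean, sub_self]
  have hvar' : variance G h' = 1 := by
    rw [← hv, variance, variance, hmean]
    refine Finset.sum_congr rfl fun x _ => by simp only [hh', hm, sub_zero]
  have hdir' : dirichletForm G h' = dirichletForm G h := by
    rw [dirichletForm, dirichletForm]
    congr 1
    refine Finset.sum_congr rfl fun x _ => Finset.sum_congr rfl fun y _ => by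
      simp only [hh']; ring
  have h1 := variance_sq_le G hc hG hE h'
  have h2 := l1_sq_le G h'
  have h3 : suppMass G h' ≤ 1 := by
    rw [← sum_statProb G hE, suppMass]
    exact Finset.sum_le_sum_of_subset_of_nonneg (Finset.filter_subset _ _)
      fun x _ _ => statProb_nonneg G x
  have h4 : ∑ x, statProb G x * (h' x) ^ 2 = 1 := by
    have := variance_eq G hE h'
    rw [hmean, hvar'] at this
    linarith
  rw [h4, mul_one] at h2
  have h5 : (∑ x, statProb G x * |h' x|) ^ 2 ≤ 1 := h2.trans h3
  have hD := dirichletForm_nonneg G h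
  rw [hvar', one_pow, hdir'] at h1
  calc (1 : ℝ) ≤ dirichletForm G h * (t * (∑ x, statProb G x * |h' x|) ^ 2) := h1
    _ ≤ dirichletForm G h * (t * 1) :=
        mul_le_mul_of_nonneg_left (mul_le_mul_of_nonneg_left h5 ht0) hD
    _ = _ := by ring

theorem profile_ge_small (hc : G.Connected) (hG : ∀ x, 0 < G.degree x)
    (hE : 0 < G.edgeFinset.card) (δ : ℝ) (hδ0 : 0 < δ) (hδ1 : δ < 1)
    (ht : 0 < (maxHittingTime G).toReal) :
    2 / (ENNReal.ofReal δ * spectralProfile G δ)
      ≤ ENNReal.ofReal (2 * (maxHittingTime G).toReal * (1 - δ)⁻¹) := by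
  set t := (maxHittingTime G).toReal with htdef
  have h1 : ENNReal.ofReal ((1 - δ) / (δ * t)) ≤ spectralProfile G δ := by
    rw [spectralProfile]
    refine le_iInf₂ fun h hh => ENNReal.ofReal_le_ofReal ?_
    rw [div_le_iff₀ (by positivity)]
    exact dirichlet_ge_small G hc hG hE h hh.1 δ hδ0 hδ1 hh.2
  have hpos : 0 < 1 - δ := by linarith
  have h2 : ENNReal.ofReal ((1 - δ) / t) ≤ ENNReal.ofReal δ * spectralProfile G δ := by
    calc ENNReal.ofReal ((1 - δ) / t) = ENNReal.ofReal δ * ENNReal.ofReal ((1 - δ) / (δ * t)) := by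
          rw [← ENNReal.ofReal_mul hδ0.le]
          congr 1
          field_simp
      _ ≤ _ := mul_le_mul_right h1 _
  calc 2 / (ENNReal.ofReal δ * spectralProfile G δ) ≤ 2 / ENNReal.ofReal ((1 - δ) / t) :=
        ENNReal.div_le_div_left h2 _
    _ = ENNReal.ofReal (2 * t * (1 - δ)⁻¹) := by
        rw [show (2 : ℝ≥0∞) = ENNReal.ofReal 2 by simp, ← ENNReal.ofReal_div_of_pos (by positivity)]
        congr 1
        field_simp

theorem profile_ge_gap (hc : G.Connected) (hG : ∀ x, 0 < G.degree x)
    (hE : 0 < G.edgeFinset.card) (δ : ℝ) (hδ0 : 0 < δ)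
    (ht : 0 < (maxHittingTime G).toReal) :
    2 / (ENNReal.ofReal δ * spectralProfile G δ)
      ≤ ENNReal.ofReal (2 * (maxHittingTime G).toReal * δ⁻¹) := by
  set t := (maxHittingTime G).toReal with htdef
  have h1 : ENNReal.ofReal (1 / t) ≤ spectralProfile G δ := by
    rw [spectralProfile]
    refine le_iInf₂ fun h hh => ENNReal.ofReal_le_ofReal ?_
    rw [div_le_iff₀ ht]
    exact dirichlet_ge_gap G hc hG hE h hh.1
  have h2 : ENNReal.ofReal (δ / t) ≤ ENNReal.ofReal δ * spectralProfile G δ := by
    calc ENNReal.ofReal (δ / t) = ENNReal.ofReal δ * ENNReal.ofReal (1 / t) := by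
          rw [← ENNReal.ofReal_mul hδ0.le]
          congr 1
          field_simp
      _ ≤ _ := mul_le_mul_right h1 _
  calc 2 / (ENNReal.ofReal δ * spectralProfile G δ) ≤ 2 / ENNReal.ofReal (δ / t) :=
        ENNReal.div_le_div_left h2 _
    _ = ENNReal.ofReal (2 * t * δ⁻¹) := by
        rw [show (2 : ℝ≥0∞) = ENNReal.ofReal 2 by simp, ← ENNReal.ofReal_div_of_pos (by positivity)]
        congr 1
        field_simp

theorem lintegral_one_sub_inv (t : ℝ) (ht : 0 ≤ t) :
    ∫⁻ δ in Set.Ioc (0 : ℝ) (1 / 2), ENNReal.ofReal (2 * t * (1 - δ)⁻¹)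
      = ENNReal.ofReal (2 * t * Real.log 2) := by
  have hcont : ContinuousOn (fun δ : ℝ => 2 * t * (1 - δ)⁻¹) (Set.Icc 0 (1 / 2)) := by
    refine ContinuousOn.mul continuousOn_const (ContinuousOn.inv₀ (by fun_prop) ?_)
    intro x hx
    have := hx.2
    linarith
  rw [← ofReal_integral_eq_lintegral_ofReal]
  · congr 1
    rw [← intervalIntegral.integral_of_le (by norm_num), intervalIntegral.integral_const_mul]
    congr 1
    have h1 : ∫ x in (0 : ℝ)..(1 / 2), (1 - x)⁻¹ = ∫ x in (1 - 1 / 2 : ℝ)..(1 - 0), x⁻¹ := by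
      rw [← intervalIntegral.integral_comp_sub_left (fun x => x⁻¹) 1]
    rw [h1, integral_inv_of_pos (by norm_num) (by norm_num)]
    norm_num
  · exact (hcont.integrableOn_Icc).mono_set Set.Ioc_subset_Icc_self
  · refine (ae_restrict_iff' measurableSet_Ioc).2 (Filter.Eventually.of_forall fun x hx => ?_)
    have : 0 < 1 - x := by linarith [hx.2]
    simp only [Pi.zero_apply]
    positivity

theorem lintegral_inv (t : ℝ) (ht : 0 ≤ t) :
    ∫⁻ δ in Set.Ioc (1 / 2 : ℝ) 16, ENNReal.ofReal (2 * t * δ⁻¹)
      = ENNReal.ofReal (2 * t * Real.log 32) := by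
  have hcont : ContinuousOn (fun δ : ℝ => 2 * t * δ⁻¹) (Set.Icc (1 / 2) 16) := by
    refine ContinuousOn.mul continuousOn_const (ContinuousOn.inv₀ (by fun_prop) ?_)
    intro x hx
    have := hx.1
    linarith
  rw [← ofReal_integral_eq_lintegral_ofReal]
  · congr 1
    rw [← intervalIntegral.integral_of_le (by norm_num), intervalIntegral.integral_const_mul]
    congr 1
    rw [integral_inv_of_pos (by norm_num) (by norm_num)]
    norm_num
  · exact (hcont.integrableOn_Icc).mono_set Set.Ioc_subset_Icc_self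
  · refine (ae_restrict_iff' measurableSet_Ioc).2 (Filter.Eventually.of_forall fun x hx => ?_)
    have : 0 < x := by linarith [hx.1]
    simp only [Pi.zero_apply]
    positivity

theorem main_nontrivial [Nontrivial V] (hc : G.Connected) :
    maxHittingTime G < ⊤ ∧
      spectralProfileTime G ≤ ENNReal.ofReal (12 * Real.log 2) * maxHittingTime G := by
  have hG : ∀ x, 0 < G.degree x := fun x => hc.preconnected.degree_pos_of_nontrivial x
  have hE : 0 < G.edgeFinset.card := by
    obtain ⟨x⟩ := hc.nonempty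
    obtain ⟨w, hw⟩ := (G.degree_pos_iff_exists_adj x).1 (hG x)
    exact Finset.card_pos.2 ⟨s(x, w), by simpa using hw⟩
  have htop := maxHittingTime_lt_top G hc hG
  refine ⟨htop, ?_⟩
  set t := (maxHittingTime G).toReal with ht
  have ht1 : 0 < t := by
    obtain ⟨x, y, hxy⟩ := exists_pair_ne V
    have h1 : (1 : ℝ≥0∞) ≤ maxHittingTime G := by
      rw [maxHittingTime_eq G hc hG]
      refine le_trans ?_ ((le_iSup (fun y => tau G x y) y).trans
        (le_iSup (fun x => ⨆ y, tau G x y) x))
      rw [tau_step G x y hxy]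
      exact le_self_add
    exact ENNReal.toReal_pos (by intro h0; rw [h0] at h1; exact absurd h1 (by simp)) htop.ne
  have hpi : 0 < minStatProb G := by
    have hne : Nonempty V := hc.nonempty
    obtain ⟨x, hx⟩ := exists_eq_ciInf_of_finite (f := fun x => statProb G x)
    rw [minStatProb, ← hx]
    have h1 : (0 : ℝ) < G.degree x := by exact_mod_cast hG x
    have h2 : (0 : ℝ) < G.edgeFinset.card := by exact_mod_cast hE
    unfold statProb
    positivity
  have hsub : Set.Icc (4 * minStatProb G) 16 ⊆ Set.Ioc (0 : ℝ) (1 / 2) ∪ Set.Ioc (1 / 2 : ℝ) 16 := by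
    intro x hx
    rw [Set.Ioc_union_Ioc_eq_Ioc (by norm_num) (by norm_num)]
    exact ⟨by linarith [hx.1], hx.2⟩
  calc spectralProfileTime G
      ≤ ∫⁻ δ in Set.Ioc (0 : ℝ) (1 / 2) ∪ Set.Ioc (1 / 2 : ℝ) 16,
          2 / (ENNReal.ofReal δ * spectralProfile G δ) := lintegral_mono_set hsub
    _ ≤ (∫⁻ δ in Set.Ioc (0 : ℝ) (1 / 2), 2 / (ENNReal.ofReal δ * spectralProfile G δ))
        + ∫⁻ δ in Set.Ioc (1 / 2 : ℝ) 16, 2 / (ENNReal.ofReal δ * spectralProfile G δ) :=
        lintegral_union_le _ _ _
    _ ≤ (∫⁻ δ in Set.Ioc (0 : ℝ) (1 / 2), ENNReal.ofReal (2 * t * (1 - δ)⁻¹))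
        + ∫⁻ δ in Set.Ioc (1 / 2 : ℝ) 16, ENNReal.ofReal (2 * t * δ⁻¹) := by
        refine add_le_add ?_ ?_
        · refine setLIntegral_mono' measurableSet_Ioc fun δ hδ => ?_
          exact profile_ge_small G hc hG hE δ hδ.1 (by linarith [hδ.2]) ht1
        · refine setLIntegral_mono' measurableSet_Ioc fun δ hδ => ?_
          exact profile_ge_gap G hc hG hE δ (by linarith [hδ.1]) ht1
    _ = ENNReal.ofReal (2 * t * Real.log 2) + ENNReal.ofReal (2 * t * Real.log 32) := by
        rw [lintegral_one_sub_inv t ht1.le, lintegral_inv t ht1.le]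
    _ = ENNReal.ofReal (12 * Real.log 2) * maxHittingTime G := by
        have hl2 : 0 < Real.log 2 := Real.log_pos (by norm_num)
        have h32 : Real.log 32 = 5 * Real.log 2 := by
          rw [show (32 : ℝ) = 2 ^ 5 by norm_num, Real.log_pow]; norm_num
        rw [← ENNReal.ofReal_add (by positivity) (by rw [h32]; positivity), h32,
          ← ENNReal.ofReal_toReal htop.ne, ← ht, ← ENNReal.ofReal_mul (by positivity)]
        congr 1
        ring

/-- The integrand defining the spectral-profile time is measurable. -/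
theorem measurable_integrand :
    Measurable fun δ : ℝ => 2 / (ENNReal.ofReal δ * spectralProfile G δ) := by
  have h1 : Antitone (spectralProfile G) := by
    intro a b hab
    rw [spectralProfile, spectralProfile]
    refine le_iInf₂ fun h hh => ?_
    exact iInf₂_le h ⟨hh.1, hh.2.trans hab⟩
  exact Measurable.const_div (ENNReal.measurable_ofReal.mul h1.measurable) _

/-- The degenerate case of a graph with one vertex: both sides vanish. -/
theorem main_subsingleton [Subsingleton V] (hc : G.Connected) :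
    maxHittingTime G < ⊤ ∧
      spectralProfileTime G ≤ ENNReal.ofReal (12 * Real.log 2) * maxHittingTime G := by
  have hstat : ∀ x, statProb G x = 0 := by
    intro x
    have h0 : G.degree x = 0 := by
      rw [← G.card_neighborFinset_eq_degree, Finset.card_eq_zero]
      ext z
      simp only [SimpleGraph.mem_neighborFinset, Finset.notMem_empty, iff_false]
      intro h
      exact h.ne (Subsingleton.elim _ _)
    simp [statProb, h0]
  have hprof : ∀ ε, spectralProfile G ε = ⊤ := by
    intro ε
    rw [spectralProfile]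
    refine top_le_iff.1 (le_iInf₂ fun h hh => ?_)
    exfalso
    have := hh.1
    simp [variance, hstat] at this
  have hmax : maxHittingTime G = 0 := by
    rw [maxHittingTime]
    refine le_antisymm (iSup_le fun x => iSup_le fun y => ?_) zero_le
    have : ∀ᵐ ω ∂(walkLaw G x), hitTime y ω = 0 := by
      filter_upwards [ae_holding G x] with ω hω
      refine le_antisymm ?_ zero_le
      refine iInf₂_le (0 : ℝ≥0) ⟨0, ?_, ?_, Subsingleton.elim _ _⟩
      · simp [jumpTime]
      · simp [jumpTime, hω 0]
    rw [lintegral_congr_ae this, lintegral_zero]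
  refine ⟨by rw [hmax]; exact ENNReal.zero_lt_top, ?_⟩
  rw [hmax, mul_zero, spectralProfileTime]
  have : ∀ᵐ δ : ℝ ∂(volume.restrict (Set.Icc (4 * minStatProb G) 16)),
      2 / (ENNReal.ofReal δ * spectralProfile G δ) = 0 := by
    have hne : ∀ᵐ δ : ℝ, δ ≠ 0 := by
      rw [ae_iff]; simp
    have hmin : minStatProb G = 0 := by
      have : Nonempty V := hc.nonempty
      rw [minStatProb]; simp [hstat]
    refine (ae_restrict_iff' measurableSet_Icc).2 ?_
    filter_upwards [hne] with δ hδ hmem
    have hpos : 0 < δ := lt_of_le_of_ne (by have := hmem.1; rw [hmin] at this; linarith) hδ.symm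
    rw [hprof, ENNReal.mul_top (by simpa using hpos), ENNReal.div_top]
  rw [lintegral_congr_ae this, lintegral_zero]

end proofs

/-- Both cases together. -/
theorem main {V : Type*} [Fintype V] [DecidableEq V] [MeasurableSpace V]
    [DiscreteMeasurableSpace V] (G : SimpleGraph V) [DecidableRel G.Adj] (hc : G.Connected) :
    maxHittingTime G < ⊤ ∧
      spectralProfileTime G ≤ ENNReal.ofReal (12 * Real.log 2) * maxHittingTime G := by
  rcases subsingleton_or_nontrivial V with h | h
  · exact main_subsingleton G hc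
  · exact main_nontrivial G hc

end Pool.Agent.H.MP_cb142b_pr
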